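import Pool.Agent.Helper72.MirrorProof

/-!
# The Fadell–Neuwirth map of an orbifold with mirror boundary is not a quasifibration

`M` is the closed half plane with mirror boundary. For every `n ≥ 1` the sequence
`π_1(F_y) → π_1(PB_{n+1}(M)) → π_1(PB_n(M))` of orbifold fundamental groups is not exact in the
middle, over a suitable smooth point `y`. (Take a loop of configurations in which the first point
moves across the mirror, then the last point moves once around the mirror image of the first point,
then the first point moves back.)
-/

set_option autoImplicit false

open Topology unitInterval Pool.Agent.Helper72.Mirror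

namespace Pool.Agent.Helper72.MirrorHalfPlane

universe v

/-- Let `M = MirrorPlane/ℤˣ` be the closed half plane with mirror boundary. For every `n ≥ 1` the
map `f(M) : PB_{n+1}(M) → PB_n(M)` is not a quasifibration. The classifying spaces are formed with
any universal space `E` for the group `ℤˣ` of order two, and such spaces exist. -/
theorem mirrorHalfPlane :
    (∃ (E : Type) (_ : TopologicalSpace E) (_ : MulAction ℤˣ E), IsUniversalSpace ℤˣ E) ∧
      ∀ (E : Type v) [TopologicalSpace E] [MulAction ℤˣ E], IsUniversalSpace ℤˣ E →
        ∀ n : ℕ, 1 ≤ n → ¬ IsQuasifibration ℤˣ E MirrorPlane n := by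
  refine ⟨⟨NonzeroSeq, inferInstance, inferInstance, isUniversal_nonzeroSeq⟩, ?_⟩
  intro E _ _ hE n hn
  obtain ⟨m, rfl⟩ : ∃ m, n = m + 1 := ⟨n - 1, by omega⟩
  exact not_quasifibration hE m

end Pool.Agent.Helper72.MirrorHalfPlane
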