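import Pool.Agent.Helper72.MirrorDefs

set_option autoImplicit false

open Topology unitInterval

namespace Pool.Agent.Helper72.Mirror

universe u v w

/-! ### Elements of `π_1` and loops -/

section Loops

variable {A B : Type*} [TopologicalSpace A] [TopologicalSpace B]

/-- The class in `π_1` of a loop. -/
def ofLoop {a : A} (l : Path a a) : π_ 1 A a :=
  Quotient.mk (GenLoop.Homotopic.setoid (Fin 1) a) ((genLoopEquivOfUnique (Fin 1)).symm l)

theorem ofLoop_eq_iff {a : A} {l l' : Path a a} : ofLoop l = ofLoop l' ↔ l.Homotopic l' := by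
  constructor
  · intro h
    have h' := (HomotopyGroup.pi1EquivFundamentalGroup (X := A) (x := a)).symm.injective
      (a₁ := Quotient.mk (Path.Homotopic.setoid a a) l)
      (a₂ := Quotient.mk (Path.Homotopic.setoid a a) l') h
    exact Quotient.exact h'
  · intro h
    exact congrArg (HomotopyGroup.pi1EquivFundamentalGroup (X := A) (x := a)).symm
      (Quotient.sound (s := Path.Homotopic.setoid a a) h)

theorem exists_ofLoop {a : A} (c : π_ 1 A a) : ∃ l : Path a a, ofLoop l = c := by
  obtain ⟨g, rfl⟩ := Quotient.exists_rep c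
  exact ⟨genLoopEquivOfUnique (Fin 1) g, by rw [ofLoop, Equiv.symm_apply_apply]⟩

theorem one_eq_ofLoop {a : A} : (1 : π_ 1 A a) = ofLoop (Path.refl a) := by
  rfl

theorem piMap_ofLoop (f : C(A, B)) {a : A} (l : Path a a) :
    piMap 1 f a (ofLoop l) = ofLoop (l.map f.continuous) := by
  rfl

end Loops

/-! ### Covering maps -/

section Cover

variable {G Y G' Y' : Type*} [Group G] [MulAction G Y] [TopologicalSpace Y]
  [Group G'] [MulAction G' Y'] [TopologicalSpace Y']

theorem isCoveringMap_mk (hc : ∀ g : G, Continuous fun y : Y => g • y)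
    (hd : ∀ y : Y, ∃ U ∈ 𝓝 y, ∀ g : G, ((g • ·) '' U ∩ U).Nonempty → g = 1) :
    IsCoveringMap (Quotient.mk'' : Y → MulAction.orbitRel.Quotient G Y) := by
  have : IsQuotientCoveringMap (Quotient.mk'' : Y → MulAction.orbitRel.Quotient G Y) G :=
    { toIsQuotientMap := isQuotientMap_quotient_mk'
      continuous_const_smul := hc
      apply_eq_iff_mem_orbit := Quotient.eq''
      disjoint := hd }
  exact this.isCoveringMap

/-- Loops downstairs whose images are homotopic lift to loops upstairs. -/
theorem exists_lift_loop {q : Y → MulAction.orbitRel.Quotient G Y}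
    {q' : Y' → MulAction.orbitRel.Quotient G' Y'} (hq : IsCoveringMap q) (hq' : IsCoveringMap q')
    (i : C(MulAction.orbitRel.Quotient G Y, MulAction.orbitRel.Quotient G' Y')) (j : C(Y, Y'))
    (hij : ∀ y, i (q y) = q' (j y)) (hj : Function.Injective j) (y₀ : Y)
    (γ : Path (j y₀) (j y₀)) (d : Path (q y₀) (q y₀))
    (h : ((γ.map hq'.continuous).cast (hij y₀) (hij y₀)).Homotopic (d.map i.continuous)) :
    ∃ l : Path y₀ y₀, γ.Homotopic (l.map j.continuous) := by
  set L : C(I, Y) := hq.liftPath d y₀ d.source with hL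
  have hL0 : L 0 = y₀ := hq.liftPath_zero _ _ _
  have hqL : q ∘ L = d := hq.liftPath_lifts _ _ _
  have e0 : ((γ.map hq'.continuous).cast (hij y₀) (hij y₀)).toContinuousMap 0 = q' (j y₀) :=
    ((γ.map hq'.continuous).cast (hij y₀) (hij y₀)).source.trans (hij y₀)
  have e1 : (d.map i.continuous).toContinuousMap 0 = q' (j y₀) :=
    (d.map i.continuous).source.trans (hij y₀)
  have key := hq'.homotopicRel_liftPath h (j y₀) e0 e1
  have h1 : γ.toContinuousMap = hq'.liftPath _ (j y₀) e0 := by
    rw [hq'.eq_liftPath_iff']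
    constructor
    · ext t; rfl
    · exact γ.source
  have h2 : j.comp L = hq'.liftPath _ (j y₀) e1 := by
    rw [hq'.eq_liftPath_iff']
    constructor
    · funext t
      have : q (L t) = d t := congrFun hqL t
      change q' (j (L t)) = i (d t)
      rw [← hij, this]
    · change j (L 0) = j y₀
      rw [hL0]
  rw [← h1, ← h2] at key
  have hL1 : L 1 = y₀ := by
    apply hj
    obtain ⟨K⟩ := key
    have a1 := K.eq_fst 0 (x := (1 : I)) (by simp)
    have a2 := K.eq_snd 0 (x := (1 : I)) (by simp)
    have : γ.toContinuousMap 1 = (j.comp L) 1 := a1.symm.trans a2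
    exact this.symm.trans γ.target
  refine ⟨⟨L, hL0, hL1⟩, ?_⟩
  exact key

end Cover


/-! ### Winding numbers -/

section Winding

/-- If a loop `α` in `ℂ ∖ {0}` is homotopic to a loop in the right half plane then its lifts
through the exponential map are closed. -/
theorem lift_closed {c : {z : ℂ // z ≠ 0}} (α β : Path c c) (h : α.Homotopic β)
    (hβ : ∀ t, 0 < (β t).1.re) (A : C(I, ℂ)) (hA : ∀ t, Complex.exp (A t) = (α t).1) :
    A 1 = A 0 := by
  have hc : (c : ℂ) = (β 0 : {z : ℂ // z ≠ 0}) := by rw [β.source]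
  let B : C(I, ℂ) :=
    { toFun := fun t => Complex.log (β t).1 + (A 0 - Complex.log c)
      continuous_toFun := by
        refine Continuous.add ?_ continuous_const
        refine Continuous.clog (continuous_subtype_val.comp β.continuous) ?_
        intro t
        exact Or.inl (hβ t) }
  have hcov := Complex.isCoveringMap_exp
  have e0 : α.toContinuousMap 0 =
      (fun z : ℂ => (⟨_, z.exp_ne_zero⟩ : {z : ℂ // z ≠ 0})) (A 0) := by
    apply Subtype.ext
    exact (hA 0).symm
  have e1 : β.toContinuousMap 0 =
      (fun z : ℂ => (⟨_, z.exp_ne_zero⟩ : {z : ℂ // z ≠ 0})) (A 0) := by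
    rw [← e0]
    exact β.source.trans α.source.symm
  have key := hcov.liftPath_apply_one_eq_of_homotopicRel h (A 0) e0 e1
  have h1 : A = hcov.liftPath _ (A 0) e0 := by
    rw [hcov.eq_liftPath_iff']
    refine ⟨?_, rfl⟩
    funext t
    exact Subtype.ext (hA t)
  have h2 : B = hcov.liftPath _ (A 0) e1 := by
    rw [hcov.eq_liftPath_iff']
    refine ⟨?_, ?_⟩
    · funext t
      apply Subtype.ext
      change Complex.exp (Complex.log (β t).1 + (A 0 - Complex.log c)) = (β t).1
      rw [Complex.exp_add, Complex.exp_sub, Complex.exp_log (β t).2, Complex.exp_log c.2, hA 0]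
      have : (α 0).1 = c.1 := by rw [α.source]
      rw [this, div_self c.2, mul_one]
    · change Complex.log (β 0).1 + (A 0 - Complex.log c) = A 0
      rw [β.source]
      ring
  rw [← h1, ← h2] at key
  rw [key]
  change Complex.log (β 1).1 + (A 0 - Complex.log c) = A 0
  rw [β.target]
  ring

end Winding

theorem smul_a (u : ℤˣ) (z : MirrorPlane) : (u • z).a = z.a := rfl

theorem smul_b (u : ℤˣ) (z : MirrorPlane) : (u • z).b = ((u : ℤ) : ℝ) * z.b := rfl

theorem abs_smul_b (u : ℤˣ) (z : MirrorPlane) : |(u • z).b| = |z.b| := by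
  rw [smul_b, abs_mul]
  rcases Int.units_eq_one_or u with rfl | rfl <;> simp

theorem continuous_ab : Continuous fun z : MirrorPlane => (z.a, z.b) := continuous_induced_dom

theorem continuous_a : Continuous MirrorPlane.a := continuous_fst.comp continuous_ab

theorem continuous_b : Continuous MirrorPlane.b := continuous_snd.comp continuous_ab

theorem continuous_mk {T : Type*} [TopologicalSpace T] {f g : T → ℝ} (hf : Continuous f)
    (hg : Continuous g) : Continuous fun t => (⟨f t, g t⟩ : MirrorPlane) :=
  continuous_induced_rng.2 (hf.prodMk hg)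

/-- The points `(0,b), (10,1), …, (10 m,1)` followed by `z`. -/
noncomputable def cfun (m : ℕ) (b : ℝ) (z : MirrorPlane) : Fin (m + 2) → MirrorPlane :=
  Fin.snoc (fun i : Fin (m + 1) => (⟨10 * (i : ℕ), if (i : ℕ) = 0 then b else 1⟩ :
    MirrorPlane)) z

theorem cfun_ok (m : ℕ) (b : ℝ) (z : MirrorPlane) (h1 : |z.a| ≤ 1) (h2 : z.a = 0 → |z.b| ≠ |b|) :
    ∀ i j, i ≠ j → ∀ h : ℤˣ, cfun m b z i ≠ h • cfun m b z j := by
  have key : ∀ (i : Fin (m + 1)), z.a = 10 * ((i : ℕ) : ℝ) →
      |z.b| ≠ |if (i : ℕ) = 0 then b else 1| := by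
    intro i hi
    by_cases h0 : (i : ℕ) = 0
    · rw [if_pos h0]
      apply h2
      rw [hi, h0]
      simp
    · exfalso
      have : (1 : ℝ) ≤ ((i : ℕ) : ℝ) := by
        exact_mod_cast Nat.one_le_iff_ne_zero.2 h0
      rw [hi, abs_of_nonneg (by positivity)] at h1
      linarith
  intro i j
  refine Fin.lastCases ?_ (fun i => ?_) i <;> refine Fin.lastCases ?_ (fun j => ?_) j
  · intro h; exact absurd rfl h
  · intro _ h e
    unfold cfun at e
    rw [Fin.snoc_last, Fin.snoc_castSucc] at e
    have e1 := congrArg MirrorPlane.a e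
    have e2 := congrArg (fun p : MirrorPlane => |p.b|) e
    rw [smul_a] at e1
    simp only [abs_smul_b] at e2
    exact key j e1 e2
  · intro _ h e
    unfold cfun at e
    rw [Fin.snoc_last, Fin.snoc_castSucc] at e
    have e1 := congrArg MirrorPlane.a e
    have e2 := congrArg (fun p : MirrorPlane => |p.b|) e
    rw [smul_a] at e1
    simp only [abs_smul_b] at e2
    exact key i e1.symm e2.symm
  · intro hij h e
    unfold cfun at e
    rw [Fin.snoc_castSucc, Fin.snoc_castSucc] at e
    have e1 := congrArg MirrorPlane.a e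
    rw [smul_a] at e1
    apply hij
    have e1' : (10 * ((i : ℕ) : ℝ)) = 10 * ((j : ℕ) : ℝ) := e1
    have : ((i : ℕ) : ℝ) = ((j : ℕ) : ℝ) := by linarith
    have : (i : ℕ) = (j : ℕ) := by exact_mod_cast this
    have : i = j := Fin.ext this
    rw [this]

/-- The configuration with points `(0,b), (10,1), …, (10 m,1), z`. -/
noncomputable def conf (m : ℕ) (b : ℝ) (z : MirrorPlane) (h1 : |z.a| ≤ 1)
    (h2 : z.a = 0 → |z.b| ≠ |b|) : OrbitConf ℤˣ MirrorPlane (m + 2) :=
  ⟨cfun m b z, cfun_ok m b z h1 h2⟩

/-- The function `(b_0 + |b_last|) + (a_last - a_0) i` of a configuration. -/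
noncomputable def phi (m : ℕ) : C(OrbitConf ℤˣ MirrorPlane (m + 2), {z : ℂ // z ≠ 0}) where
  toFun x := ⟨⟨(x.1 0).b + |(x.1 (Fin.last (m + 1))).b|, (x.1 (Fin.last (m + 1))).a - (x.1 0).a⟩, by
    intro h
    have hre := congrArg Complex.re h
    have him := congrArg Complex.im h
    simp only [Complex.zero_re, Complex.zero_im] at hre him
    rcases le_total 0 (x.1 (Fin.last (m + 1))).b with hs | hs
    · rw [abs_of_nonneg hs] at hre
      apply x.2 0 (Fin.last (m + 1)) (by simp [Fin.ext_iff]) (-1)
      apply MirrorPlane.ext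
      · rw [smul_a]; linarith
      · rw [smul_b]; push_cast; linarith
    · rw [abs_of_nonpos hs] at hre
      apply x.2 0 (Fin.last (m + 1)) (by simp [Fin.ext_iff]) 1
      apply MirrorPlane.ext
      · rw [smul_a]; linarith
      · rw [smul_b]; push_cast; linarith⟩
  continuous_toFun := by
    apply Continuous.subtype_mk
    have h : Continuous fun x : OrbitConf ℤˣ MirrorPlane (m + 2) => x.1 := continuous_subtype_val
    have h0 : Continuous fun x : OrbitConf ℤˣ MirrorPlane (m + 2) => x.1 0 :=
      (continuous_apply 0).comp h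
    have h1 : Continuous fun x : OrbitConf ℤˣ MirrorPlane (m + 2) =>
      x.1 (Fin.last (m + 1)) := (continuous_apply (Fin.last (m + 1))).comp h
    have h2 : Continuous fun x : OrbitConf ℤˣ MirrorPlane (m + 2) =>
      ((((x.1 0).b + |(x.1 (Fin.last (m + 1))).b|),
        ((x.1 (Fin.last (m + 1))).a - (x.1 0).a)) : ℝ × ℝ) :=
      ((continuous_b.comp h0).add (continuous_b.comp h1).abs).prodMk
        ((continuous_a.comp h1).sub (continuous_a.comp h0))
    exact Complex.equivRealProdCLM.symm.continuous.comp h2


/-! ### The loop of configurations -/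

theorem continuous_cfun {T : Type*} [TopologicalSpace T] (m : ℕ) {f : T → ℝ} {g : T → MirrorPlane}
    (hf : Continuous f) (hg : Continuous g) : Continuous fun t => cfun m (f t) (g t) := by
  refine Continuous.finSnoc (continuous_pi fun i => ?_) hg
  apply continuous_mk continuous_const
  by_cases h : (i : ℕ) = 0
  · simp only [h, if_true]; exact hf
  · simp only [h, if_false]; exact continuous_const

theorem conf_congr (m : ℕ) {b b' : ℝ} {z z' : MirrorPlane} (hb : b = b') (hz : z = z')
    {h1 : |z.a| ≤ 1} {h2 : z.a = 0 → |z.b| ≠ |b|} {h1' : |z'.a| ≤ 1}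
    {h2' : z'.a = 0 → |z'.b| ≠ |b'|} : conf m b z h1 h2 = conf m b' z' h1' h2' := by
  subst hb hz
  rfl

/-- The base configuration `(0,1), (10,1), …, (10 m,1), (1,1)`. -/
noncomputable def x0 (m : ℕ) : OrbitConf ℤˣ MirrorPlane (m + 2) :=
  conf m 1 ⟨1, 1⟩ (by simp) (by simp)

/-- The configuration `(0,-1), (10,1), …, (10 m,1), (1,1)`. -/
noncomputable def x1 (m : ℕ) : OrbitConf ℤˣ MirrorPlane (m + 2) :=
  conf m (-1) ⟨1, 1⟩ (by simp) (by simp)

/-- The first point moves from `(0,1)` to `(0,-1)`. -/
noncomputable def pathP (m : ℕ) : Path (x0 m) (x1 m) where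
  toFun t := conf m (1 - 2 * t) ⟨1, 1⟩ (by simp) (by simp)
  continuous_toFun := by
    apply Continuous.subtype_mk
    exact continuous_cfun m (by fun_prop) continuous_const
  source' := conf_congr m (by simp) rfl
  target' := conf_congr m (by norm_num) rfl

theorem circ_ok (s : ℝ) : Real.cos s = 0 → |1 + Real.sin s| ≠ |(-1 : ℝ)| := by
  intro h
  have h1 := Real.sin_sq_add_cos_sq s
  rw [h] at h1
  have h2 : (Real.sin s - 1) * (Real.sin s + 1) = 0 := by nlinarith
  rcases mul_eq_zero.1 h2 with h3 | h3
  · have : Real.sin s = 1 := by linarith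
    rw [this]; norm_num
  · have : Real.sin s = -1 := by linarith
    rw [this]; norm_num

/-- The last point moves around the circle of centre `(0,1)` and radius `1`. -/
noncomputable def pathC (m : ℕ) : Path (x1 m) (x1 m) where
  toFun t := conf m (-1) ⟨Real.cos (2 * Real.pi * t), 1 + Real.sin (2 * Real.pi * t)⟩
    (Real.abs_cos_le_one _) (circ_ok _)
  continuous_toFun := by
    apply Continuous.subtype_mk
    exact continuous_cfun m continuous_const (continuous_mk (by fun_prop) (by fun_prop))
  source' := conf_congr m rfl (by simp)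
  target' := conf_congr m rfl (by simp)

/-- The loop of configurations. -/
noncomputable def loopG (m : ℕ) : Path (x0 m) (x0 m) := ((pathP m).trans (pathC m)).trans
  (pathP m).symm

theorem continuous_init {n : ℕ} :
    Continuous (OrbitConf.init : OrbitConf ℤˣ MirrorPlane (n + 1) → OrbitConf ℤˣ MirrorPlane n) := by
  apply Continuous.subtype_mk
  exact continuous_pi fun i => (continuous_apply _).comp continuous_subtype_val

theorem init_loopG (m : ℕ) :
    ((loopG m).map continuous_init).Homotopic (Path.refl (x0 m).init) := by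
  have hC : (pathC m).map continuous_init = Path.refl (x1 m).init := by
    ext t
    apply Subtype.ext
    funext i
    change cfun m (-1) _ i.castSucc = cfun m (-1) _ i.castSucc
    unfold cfun
    rw [Fin.snoc_castSucc, Fin.snoc_castSucc]
  have e : (loopG m).map continuous_init =
      (((pathP m).map continuous_init).trans (Path.refl _)).trans
        ((pathP m).map continuous_init).symm := by
    rw [loopG, Path.map_trans, Path.map_trans, hC, Path.map_symm]
  rw [e]
  have h1 : (((pathP m).map continuous_init).trans (Path.refl _)).Homotopic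
      ((pathP m).map continuous_init) := ⟨Path.Homotopy.transRefl _⟩
  have h2 := h1.hcomp (Path.Homotopic.refl ((pathP m).map continuous_init).symm)
  exact h2.trans ⟨(Path.Homotopy.reflTransSymm _).symm⟩

/-! ### The lift of the image of the loop in `ℂ ∖ {0}` -/

/-- The lift over the first third. -/
noncomputable def lift1 : Path (Complex.log ⟨2, 1⟩) (Real.pi / 2 * Complex.I) where
  toFun t := Complex.log ⟨2 - 2 * t, 1⟩
  continuous_toFun := by
    apply Continuous.clog
    · have : Continuous fun t : I => (((2 - 2 * t : ℝ), (1 : ℝ)) : ℝ × ℝ) := by fun_prop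
      exact Complex.equivRealProdCLM.symm.continuous.comp this
    · intro t
      right
      exact one_ne_zero
  source' := by simp
  target' := by
    rw [← Complex.log_I]
    congr 1
    apply Complex.ext <;> simp

/-- The lift over the second third. -/
noncomputable def lift2 : Path (Real.pi / 2 * Complex.I)
    (Real.pi / 2 * Complex.I - 2 * Real.pi * Complex.I) where
  toFun t := Real.pi / 2 * Complex.I - 2 * Real.pi * ((t : ℝ) : ℂ) * Complex.I
  continuous_toFun := by fun_prop
  source' := by simp
  target' := by simp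

/-- The lift over the last third. -/
noncomputable def lift3 : Path (Real.pi / 2 * Complex.I - 2 * Real.pi * Complex.I)
    (Complex.log ⟨2, 1⟩ - 2 * Real.pi * Complex.I) where
  toFun t := Complex.log ⟨2 * t, 1⟩ - 2 * Real.pi * Complex.I
  continuous_toFun := by
    apply Continuous.sub _ continuous_const
    apply Continuous.clog
    · have : Continuous fun t : I => (((2 * t : ℝ), (1 : ℝ)) : ℝ × ℝ) := by fun_prop
      exact Complex.equivRealProdCLM.symm.continuous.comp this
    · intro t
      right
      exact one_ne_zero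
  source' := by
    rw [← Complex.log_I]
    congr 2
    apply Complex.ext <;> simp
  target' := by simp

theorem cfun_zero (m : ℕ) (b : ℝ) (z : MirrorPlane) : cfun m b z 0 = ⟨0, b⟩ := by
  have : (0 : Fin (m + 2)) = (0 : Fin (m + 1)).castSucc := rfl
  unfold cfun
  rw [this, Fin.snoc_castSucc]
  simp

theorem cfun_last (m : ℕ) (b : ℝ) (z : MirrorPlane) : cfun m b z (Fin.last (m + 1)) = z := by
  unfold cfun
  rw [Fin.snoc_last]

theorem phi_conf (m : ℕ) (x : OrbitConf ℤˣ MirrorPlane (m + 2)) (b : ℝ) (z : MirrorPlane)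
    (h : x.1 = cfun m b z) : (phi m x).1 = ⟨b + |z.b|, z.a⟩ := by
  change (⟨(x.1 0).b + |(x.1 (Fin.last (m + 1))).b|,
    (x.1 (Fin.last (m + 1))).a - (x.1 0).a⟩ : ℂ) = _
  rw [h, cfun_zero, cfun_last]
  simp

theorem exp_lift1 (m : ℕ) (t : I) : Complex.exp (lift1 t) = (phi m (pathP m t)).1 := by
  rw [phi_conf m (pathP m t) (1 - 2 * t) ⟨1, 1⟩ rfl]
  change Complex.exp (Complex.log ⟨2 - 2 * t, 1⟩) = _
  rw [Complex.exp_log]
  · apply Complex.ext
    · change (2 - 2 * (t : ℝ)) = (1 - 2 * (t : ℝ)) + |1|
      rw [abs_one]; ring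
    · rfl
  · intro h
    have := congrArg Complex.im h
    simp at this

theorem exp_lift2 (m : ℕ) (t : I) : Complex.exp (lift2 t) = (phi m (pathC m t)).1 := by
  rw [phi_conf m (pathC m t) (-1) ⟨Real.cos (2 * Real.pi * t), 1 + Real.sin (2 * Real.pi * t)⟩ rfl]
  change Complex.exp (Real.pi / 2 * Complex.I - 2 * Real.pi * ((t : ℝ) : ℂ) * Complex.I) = _
  have e : (Real.pi / 2 * Complex.I - 2 * Real.pi * ((t : ℝ) : ℂ) * Complex.I : ℂ) =
      ((Real.pi / 2 - 2 * Real.pi * t : ℝ) : ℂ) * Complex.I := by
    push_cast; ring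
  rw [e, Complex.exp_mul_I, ← Complex.ofReal_cos, ← Complex.ofReal_sin, Real.cos_pi_div_two_sub,
    Real.sin_pi_div_two_sub]
  have h : |1 + Real.sin (2 * Real.pi * t)| = 1 + Real.sin (2 * Real.pi * t) := by
    apply abs_of_nonneg
    linarith [Real.neg_one_le_sin (2 * Real.pi * t)]
  apply Complex.ext
  · change _ = -1 + |1 + Real.sin (2 * Real.pi * t)|
    rw [h]
    simp only [Complex.add_re, Complex.ofReal_re, Complex.mul_re, Complex.ofReal_im, Complex.I_re,
      Complex.I_im]
    ring
  · simp only [Complex.add_im, Complex.ofReal_re, Complex.mul_im, Complex.ofReal_im, Complex.I_re,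
      Complex.I_im]
    ring

theorem exp_lift3 (m : ℕ) (t : I) : Complex.exp (lift3 t) = (phi m ((pathP m).symm t)).1 := by
  rw [phi_conf m ((pathP m).symm t) (1 - 2 * (1 - (t : ℝ))) ⟨1, 1⟩ rfl]
  change Complex.exp (Complex.log ⟨2 * t, 1⟩ - 2 * Real.pi * Complex.I) = _
  rw [Complex.exp_sub, Complex.exp_two_pi_mul_I, Complex.exp_log, div_one]
  · apply Complex.ext
    · change (2 * (t : ℝ)) = (1 - 2 * (1 - (t : ℝ))) + |1|
      rw [abs_one]; ring
    · rfl
  · intro h
    have := congrArg Complex.im h
    simp at this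

/-- The lift. -/
noncomputable def liftG : Path (Complex.log ⟨2, 1⟩) (Complex.log ⟨2, 1⟩ - 2 * Real.pi * Complex.I) :=
  (lift1.trans lift2).trans lift3

theorem exp_liftG (m : ℕ) (t : I) : Complex.exp (liftG t) = (phi m (loopG m t)).1 := by
  unfold liftG loopG
  simp only [Path.trans_apply]
  split_ifs
  · exact exp_lift1 m _
  · exact exp_lift2 m _
  · exact exp_lift3 m _

/-! ### A universal space for the group of order two -/

/-- The space of nonzero real sequences (with the product topology). -/
structure NonzeroSeq where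
  /-- the sequence -/
  val : ℕ → ℝ
  ne_zero : val ≠ 0

instance : TopologicalSpace NonzeroSeq := TopologicalSpace.induced NonzeroSeq.val inferInstance

theorem NonzeroSeq.ext' {x y : NonzeroSeq} (h : ∀ n, x.val n = y.val n) : x = y := by
  obtain ⟨x, hx⟩ := x
  obtain ⟨y, hy⟩ := y
  have : x = y := funext h
  subst this
  rfl

theorem units_mul_ne_zero (u : ℤˣ) (x : NonzeroSeq) : (fun n => ((u : ℤ) : ℝ) * x.val n) ≠ 0 := by
  intro h
  apply x.ne_zero
  funext n
  have := congrFun h n
  rcases Int.units_eq_one_or u with rfl | rfl <;> simpa using this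

/-- The antipodal action. -/
noncomputable instance : MulAction ℤˣ NonzeroSeq where
  smul u x := ⟨fun n => ((u : ℤ) : ℝ) * x.val n, units_mul_ne_zero u x⟩
  one_smul x := NonzeroSeq.ext' fun n => by
    change (((1 : ℤˣ) : ℤ) : ℝ) * x.val n = x.val n
    simp
  mul_smul u v x := NonzeroSeq.ext' fun n => by
    change (((u * v : ℤˣ) : ℤ) : ℝ) * x.val n = ((u : ℤ) : ℝ) * (((v : ℤ) : ℝ) * x.val n)
    simp [mul_assoc]

/-- The shift of a sequence. -/
def shift (x : ℕ → ℝ) : ℕ → ℝ
  | 0 => 0
  | n + 1 => x n

theorem continuous_shift : Continuous shift := by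
  apply continuous_pi
  intro n
  cases n with
  | zero => exact continuous_const
  | succ n => exact continuous_apply n

theorem shift_ne_zero {x : ℕ → ℝ} (hx : x ≠ 0) : shift x ≠ 0 := by
  intro h
  apply hx
  funext n
  exact congrFun h (n + 1)

theorem mix_ne_zero {x : ℕ → ℝ} (hx : x ≠ 0) (t : ℝ) :
    (fun n => (1 - t) * x n + t * shift x n) ≠ 0 := by
  intro h
  by_cases ht : t = 1
  · apply shift_ne_zero hx
    funext n
    have := congrFun h n
    simpa [ht] using this
  · apply hx
    have ht' : (1 - t) ≠ 0 := fun h' => ht (by linarith)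
    funext n
    induction n with
    | zero =>
      have := congrFun h 0
      simp only [shift, Pi.zero_apply, mul_zero, add_zero] at this
      exact (mul_eq_zero.1 this).resolve_left ht'
    | succ n ih =>
      have := congrFun h (n + 1)
      simp only [shift, Pi.zero_apply] at this
      rw [ih] at this
      simp only [Pi.zero_apply, mul_zero, add_zero] at this
      exact (mul_eq_zero.1 this).resolve_left ht'

theorem mix'_ne_zero {x : ℕ → ℝ} (hx : x ≠ 0) (t : ℝ) :
    (fun n => (1 - t) * shift x n + t * (if n = 0 then 1 else 0)) ≠ 0 := by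
  intro h
  by_cases ht : t = 0
  · apply shift_ne_zero hx
    funext n
    have := congrFun h n
    simpa [ht] using this
  · have := congrFun h 0
    simp [shift] at this
    exact ht this

theorem isUniversal_nonzeroSeq : IsUniversalSpace ℤˣ NonzeroSeq where
  contractible := by
    rw [contractible_iff_id_nullhomotopic]
    have hval : Continuous NonzeroSeq.val := continuous_induced_dom
    let s : C(NonzeroSeq, NonzeroSeq) :=
      ⟨fun x => ⟨shift x.val, shift_ne_zero x.ne_zero⟩,
        continuous_induced_rng.2 (continuous_shift.comp hval)⟩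
    refine ⟨⟨fun n => if n = 0 then 1 else 0, fun h => by simpa using congrFun h 0⟩, ?_⟩
    have h1 : (ContinuousMap.id NonzeroSeq).Homotopic s := by
      refine ⟨⟨⟨fun a => ⟨fun n => (1 - (a.1 : ℝ)) * a.2.val n + a.1 * shift a.2.val n,
        mix_ne_zero a.2.ne_zero _⟩, ?_⟩, ?_, ?_⟩⟩
      · apply continuous_induced_rng.2
        apply continuous_pi
        intro n
        have h1 : Continuous fun a : I × NonzeroSeq => (a.1 : ℝ) :=
          continuous_subtype_val.comp continuous_fst
        have h2 : Continuous fun a : I × NonzeroSeq => a.2.val n :=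
          (continuous_apply n).comp (hval.comp continuous_snd)
        have h3 : Continuous fun a : I × NonzeroSeq => shift a.2.val n :=
          (continuous_apply n).comp (continuous_shift.comp (hval.comp continuous_snd))
        exact ((continuous_const.sub h1).mul h2).add (h1.mul h3)
      · intro x
        apply NonzeroSeq.ext'
        intro n
        simp
      · intro x
        apply NonzeroSeq.ext'
        intro n
        simp [s]
    have h2 : s.Homotopic (ContinuousMap.const _ ⟨fun n => if n = 0 then 1 else 0,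
        fun h => by simpa using congrFun h 0⟩) := by
      refine ⟨⟨⟨fun a => ⟨fun n => (1 - (a.1 : ℝ)) * shift a.2.val n +
        a.1 * (if n = 0 then 1 else 0), mix'_ne_zero a.2.ne_zero _⟩, ?_⟩, ?_, ?_⟩⟩
      · apply continuous_induced_rng.2
        apply continuous_pi
        intro n
        have h1 : Continuous fun a : I × NonzeroSeq => (a.1 : ℝ) :=
          continuous_subtype_val.comp continuous_fst
        have h3 : Continuous fun a : I × NonzeroSeq => shift a.2.val n :=
          (continuous_apply n).comp (continuous_shift.comp (hval.comp continuous_snd))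
        exact ((continuous_const.sub h1).mul h3).add (h1.mul continuous_const)
      · intro x
        apply NonzeroSeq.ext'
        intro n
        simp [s]
      · intro x
        apply NonzeroSeq.ext'
        intro n
        simp
    exact h1.trans h2
  continuous_smul u := by
    have hval : Continuous NonzeroSeq.val := continuous_induced_dom
    apply continuous_induced_rng.2
    exact continuous_pi fun n => continuous_const.mul ((continuous_apply n).comp hval)
  disjoint x := by
    have hval : Continuous NonzeroSeq.val := continuous_induced_dom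
    obtain ⟨n, hn⟩ : ∃ n, x.val n ≠ 0 := by
      by_contra h
      push Not at h
      exact x.ne_zero (funext h)
    refine ⟨{y | 0 < y.val n * x.val n}, ?_, ?_⟩
    · apply IsOpen.mem_nhds
      · exact isOpen_lt continuous_const
          (((continuous_apply n).comp hval).mul continuous_const)
      · exact mul_self_pos.2 hn
    · rintro u ⟨y, ⟨w, hw, rfl⟩, hy⟩
      rcases Int.units_eq_one_or u with rfl | rfl
      · rfl
      · exfalso
        have h1 : 0 < w.val n * x.val n := hw
        have h2 : 0 < ((((-1 : ℤˣ) : ℤ) : ℝ) * w.val n) * x.val n := hy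
        push_cast at h2
        nlinarith

/-! ### The main argument -/

noncomputable section Main

variable {E : Type v} [TopologicalSpace E] [MulAction ℤˣ E]

/-- The last point of a configuration, as a point of the fibre. -/
def OrbitConf.last {H : Type u} [Group H] {X : Type w} [MulAction H X] {n : ℕ}
    (x : OrbitConf H X (n + 1)) : Punctured H x.init :=
  ⟨x.1 (Fin.last n), fun i h => x.2 (Fin.last n) i.castSucc (Fin.castSucc_lt_last i).ne' h⟩

theorem snoc_init_last {H : Type u} [Group H] {X : Type w} [MulAction H X] {n : ℕ}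
    (x : OrbitConf H X (n + 1)) : x.init.snoc x.last = x := by
  apply Subtype.ext
  change (Fin.snoc (fun i : Fin n => x.1 i.castSucc) (x.1 (Fin.last n)) : Fin (n + 1) → X) = x.1
  exact Fin.snoc_init_self x.1

theorem continuous_smul_plane (u : ℤˣ) : Continuous fun z : MirrorPlane => u • z :=
  continuous_mk continuous_a (continuous_const.mul continuous_b)

/-- The covering `E × (X ∖ H·y) → E ×_H (X ∖ H·y)`. -/
theorem cover_fiber (hE : IsUniversalSpace ℤˣ E) {n : ℕ} (y : OrbitConf ℤˣ MirrorPlane n) :
    IsCoveringMap (Quotient.mk'' : E × Punctured ℤˣ y → ClassFiber ℤˣ E y) := by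
  apply isCoveringMap_mk
  · intro g
    apply Continuous.prodMk
    · exact (hE.continuous_smul g).comp continuous_fst
    · apply Continuous.subtype_mk
      exact (continuous_smul_plane g).comp (continuous_subtype_val.comp continuous_snd)
  · intro a
    obtain ⟨U, hU, hU'⟩ := hE.disjoint a.1
    refine ⟨Prod.fst ⁻¹' U, continuous_fst.continuousAt.preimage_mem_nhds hU, ?_⟩
    rintro g ⟨b, ⟨c, hc, rfl⟩, hb⟩
    exact hU' g ⟨g • c.1, ⟨c.1, hc, rfl⟩, hb⟩

/-- The covering `E^n × (orbit configurations) → classifying space of PB_n`. -/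
theorem cover_PB (hE : IsUniversalSpace ℤˣ E) (n : ℕ) :
    IsCoveringMap (Quotient.mk'' : (Fin n → E) × OrbitConf ℤˣ MirrorPlane n →
      ClassPB ℤˣ E MirrorPlane n) := by
  apply isCoveringMap_mk
  · intro g
    apply Continuous.prodMk
    · exact continuous_pi fun i =>
        (hE.continuous_smul (g i)).comp ((continuous_apply i).comp continuous_fst)
    · apply Continuous.subtype_mk
      exact continuous_pi fun i => (continuous_smul_plane (g i)).comp
        ((continuous_apply i).comp (continuous_subtype_val.comp continuous_snd))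
  · intro a
    choose U hU hU' using hE.disjoint
    refine ⟨Prod.fst ⁻¹' (Set.pi Set.univ fun i => U (a.1 i)),
      continuous_fst.continuousAt.preimage_mem_nhds (set_pi_mem_nhds Set.finite_univ
        fun i _ => hU (a.1 i)), ?_⟩
    rintro g ⟨b, ⟨c, hc, rfl⟩, hb⟩
    funext i
    exact hU' (a.1 i) (g i) ⟨g i • c.1 i, ⟨c.1 i, hc i (Set.mem_univ i), rfl⟩,
      hb i (Set.mem_univ i)⟩

/-- The map `E × (X ∖ H·y) → E^{n+1} × (orbit configurations)` adding a point. -/
def addPoint {n : ℕ} (e : Fin n → E) (y : OrbitConf ℤˣ MirrorPlane n) :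
    C(E × Punctured ℤˣ y, (Fin (n + 1) → E) × OrbitConf ℤˣ MirrorPlane (n + 1)) where
  toFun a := (Fin.snoc e a.1, y.snoc a.2)
  continuous_toFun := by
    apply Continuous.prodMk
    · exact Continuous.finSnoc continuous_const continuous_fst
    · apply Continuous.subtype_mk
      exact Continuous.finSnoc continuous_const (continuous_subtype_val.comp continuous_snd)

omit [MulAction ℤˣ E] in
theorem addPoint_injective {n : ℕ} (e : Fin n → E) (y : OrbitConf ℤˣ MirrorPlane n) :
    Function.Injective (addPoint e y) := by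
  intro a b h
  have h1 : (Fin.snoc e a.1 : Fin (n + 1) → E) = Fin.snoc e b.1 := congrArg Prod.fst h
  have h2 : (Fin.snoc y.1 a.2.1 : Fin (n + 1) → MirrorPlane) = Fin.snoc y.1 b.2.1 :=
    congrArg (fun c => c.2.1) h
  apply Prod.ext
  · have := congrFun h1 (Fin.last n)
    rwa [Fin.snoc_last, Fin.snoc_last] at this
  · apply Subtype.ext
    have := congrFun h2 (Fin.last n)
    rwa [Fin.snoc_last, Fin.snoc_last] at this

/-- The map from configurations to the classifying space given by a point of `E^n`. -/
def atPoint {n : ℕ} (e : Fin n → E) :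
    C(OrbitConf ℤˣ MirrorPlane n, ClassPB ℤˣ E MirrorPlane n) where
  toFun x := Quotient.mk'' (e, x)
  continuous_toFun := continuous_quotient_mk'.comp (continuous_const.prodMk continuous_id)

theorem piMap_classForget {n : ℕ} {x : OrbitConf ℤˣ MirrorPlane (n + 1)} (γ : Path x x)
    (h : (γ.map continuous_init).Homotopic (Path.refl x.init)) (e : Fin (n + 1) → E) :
    piMap 1 (classForget n) (atPoint e x) (ofLoop (γ.map (atPoint e).continuous)) = 1 := by
  rw [piMap_ofLoop, one_eq_ofLoop, ofLoop_eq_iff]
  exact h.map (atPoint (fun i => e i.castSucc))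

theorem smooth_base (m : ℕ) (g : Fin (m + 1) → ℤˣ) (hg : g • (x0 m).init = (x0 m).init) :
    g = 1 := by
  funext i
  have h1 := congrArg (fun c : OrbitConf ℤˣ MirrorPlane (m + 1) => (c.1 i).b) hg
  have h2 : (g i • (x0 m).init.1 i).b = ((x0 m).init.1 i).b := h1
  have h3 : ((x0 m).init.1 i).b = 1 := by
    change (cfun m 1 ⟨1, 1⟩ i.castSucc).b = 1
    unfold cfun
    rw [Fin.snoc_castSucc]
    simp
  rw [smul_b, h3, mul_one] at h2
  have h4 : ((g i : ℤˣ) : ℤ) = 1 := by exact_mod_cast h2
  exact Units.ext h4

theorem loop_init_cast (m : ℕ) {x : OrbitConf ℤˣ MirrorPlane (m + 2)} (hx : x = x0 m) :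
    (((loopG m).cast hx hx).map continuous_init).Homotopic (Path.refl x.init) := by
  subst hx
  exact init_loopG m

theorem not_quasifibration (hE : IsUniversalSpace ℤˣ E) (m : ℕ) :
    ¬ IsQuasifibration ℤˣ E MirrorPlane (m + 1) := by
  intro hQ
  obtain ⟨e0⟩ : Nonempty E := by
    have := hE.contractible
    infer_instance
  -- the base point
  set y : OrbitConf ℤˣ MirrorPlane (m + 1) := (x0 m).init with hy
  set z : Punctured ℤˣ y := (x0 m).last with hz
  have hx : y.snoc z = x0 m := snoc_init_last _
  set e : Fin (m + 1) → E := fun _ => e0 with he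
  obtain ⟨δ, -, h2, -, -⟩ := hQ y (smooth_base m) z e e0
  -- the loop
  set γ : Path (y.snoc z) (y.snoc z) := (loopG m).cast hx hx with hγ
  set ee : Fin (m + 2) → E := Fin.snoc e e0 with hee
  let Γ : Path (classIncl e y (Quotient.mk'' (e0, z))) (classIncl e y (Quotient.mk'' (e0, z))) :=
    γ.map (atPoint ee).continuous
  have hker := piMap_classForget γ (loop_init_cast m hx) ee
  obtain ⟨b, hb⟩ := (h2 0 (ofLoop Γ)).1 hker
  obtain ⟨d, rfl⟩ := exists_ofLoop b
  have hb' : (d.map (classIncl e y).continuous).Homotopic Γ := ofLoop_eq_iff.1 hb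
  obtain ⟨l, hl⟩ := exists_lift_loop (cover_fiber hE y) (cover_PB hE (m + 2)) (classIncl e y)
    (addPoint e y) (fun _ => rfl) (addPoint_injective e y) (e0, z)
    (γ.map (f := fun x => (ee, x)) (by fun_prop)) d hb'.symm
  have hl' := hl.map ((phi m).comp ⟨Prod.snd, continuous_snd⟩)
  have key := lift_closed _ _ hl' (by
    intro t
    change 0 < ((y.snoc (l t).2).1 0).b + |((y.snoc (l t).2).1 (Fin.last (m + 1))).b|
    have : ((y.snoc (l t).2).1 0).b = 1 := by
      have h0 : (0 : Fin (m + 2)) = (0 : Fin (m + 1)).castSucc := rfl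
      change ((Fin.snoc y.1 (l t).2.1 : Fin (m + 2) → MirrorPlane) 0).b = 1
      rw [h0, Fin.snoc_castSucc]
      change (cfun m 1 ⟨1, 1⟩ 0).b = 1
      rw [cfun_zero]
    rw [this]
    positivity) liftG (by
    intro t
    exact exp_liftG m t)
  have key' : liftG 1 = liftG 0 := key
  rw [liftG.target, liftG.source] at key'
  have : (2 * Real.pi * Complex.I : ℂ) = 0 := by
    linear_combination -key'
  exact Complex.two_pi_I_ne_zero this

end Main

end Pool.Agent.Helper72.Mirror
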